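import Pool.Agent.Q141.ST.Defs

/-!
# The Solomon-Terao algebra of a grid arrangement
-/

set_option autoImplicit false

open MvPolynomial Module

namespace Pool.Agent.Q141.ST

variable {K : Type} [Field K]

section general

theorem finrank_map_add {V W : Type*} [AddCommGroup V] [Module K V] [AddCommGroup W] [Module K W]
    (U : Submodule K V) [FiniteDimensional K U] (g : V →ₗ[K] W) :
    finrank K (U.map g) + finrank K (U ⊓ LinearMap.ker g : Submodule K V) = finrank K U := by
  have h1 := LinearMap.finrank_range_add_finrank_ker (g.domRestrict U)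
  have h2 : LinearMap.range (g.domRestrict U) = U.map g := by
    ext x
    simp only [LinearMap.mem_range, Submodule.mem_map]
    constructor
    · rintro ⟨y, rfl⟩
      exact ⟨y, y.2, rfl⟩
    · rintro ⟨y, hy, rfl⟩
      exact ⟨⟨y, hy⟩, rfl⟩
  have h3 : finrank K (LinearMap.ker (g.domRestrict U)) =
      finrank K (U ⊓ LinearMap.ker g : Submodule K V) := by
    have : (LinearMap.ker (g.domRestrict U)).map U.subtype = U ⊓ LinearMap.ker g := by
      ext x
      simp only [Submodule.mem_map, LinearMap.mem_ker, Submodule.mem_inf]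
      constructor
      · rintro ⟨y, hy, rfl⟩
        exact ⟨y.2, hy⟩
      · rintro ⟨hx, hx'⟩
        exact ⟨⟨x, hx⟩, hx', rfl⟩
    rw [← this, Submodule.finrank_map_subtype_eq]
  rw [h2, h3] at h1
  exact h1

theorem fr {V Q W : Type*} [AddCommGroup V] [Module K V] [AddCommGroup W] [Module K W]
    [AddCommGroup Q] [Module K Q] (U : Submodule K V) [FiniteDimensional K U] (m : V →ₗ[K] Q)
    (c : V →ₗ[K] W) (h : U ⊓ LinearMap.ker c ≤ LinearMap.ker m) :
    finrank K (U.map m) + finrank K ((U ⊓ LinearMap.ker m : Submodule K V).map c) =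
      finrank K (U.map c) := by
  have h1 := finrank_map_add U m
  have hfin : FiniteDimensional K (U ⊓ LinearMap.ker m : Submodule K V) :=
    Submodule.finiteDimensional_of_le inf_le_left
  have h2 := finrank_map_add (U ⊓ LinearMap.ker m) c
  have h3 := finrank_map_add U c
  have h4 : (U ⊓ LinearMap.ker m ⊓ LinearMap.ker c : Submodule K V) = U ⊓ LinearMap.ker c := by
    apply le_antisymm
    · exact inf_le_inf_right _ inf_le_left
    · exact le_inf (le_inf inf_le_left h) inf_le_right
  rw [h4] at h2
  omega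

theorem rp {n : ℕ} {i j : Fin n} (hij : i ≠ j) {a b : K} (hab : a ≠ b) :
    IsRelPrime (X i - C a * X j : MvPolynomial (Fin n) K) (X i - C b * X j) := by
  intro d h1 h2
  have h0 : IsRelPrime (X i : MvPolynomial (Fin n) K) (X j) :=
    (X_prime (i := i)).irreducible.isRelPrime_iff_not_dvd.2 (by rw [X_dvd_X]; exact hij)
  have h3 : d ∣ C (b - a) * X j := by
    have : (C (b - a) * X j : MvPolynomial (Fin n) K) = (X i - C a * X j) - (X i - C b * X j) := by
      rw [map_sub]; ring
    rw [this]
    exact dvd_sub h1 h2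
  have h4 : d ∣ X j := by
    have h5 : (X j : MvPolynomial (Fin n) K) = C (b - a)⁻¹ * (C (b - a) * X j) := by
      rw [← mul_assoc, ← C_mul, inv_mul_cancel₀ (sub_ne_zero.2 hab.symm), C_1, one_mul]
    rw [h5]
    exact h3.mul_left _
  have h5 : d ∣ X i := by
    have : (X i : MvPolynomial (Fin n) K) = (X i - C a * X j) + C a * X j := by ring
    rw [this]
    exact dvd_add h1 (h4.mul_left _)
  exact h0 h5 h4

end general

/-- `(x - z)(x + z)(x - 2 z)` -/
noncomputable def f1 (K : Type) [Field K] : MvPolynomial (Fin 3) K :=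
  (X 0 - C 1 * X 2) * (X 0 - C (-1) * X 2) * (X 0 - C 2 * X 2)

/-- `(y - z)(y + z)` -/
noncomputable def f2 (K : Type) [Field K] : MvPolynomial (Fin 3) K :=
  (X 1 - C 1 * X 2) * (X 1 - C (-1) * X 2)

/-- `x ^ 2 + y ^ 2 + z ^ 2` -/
noncomputable def et (K : Type) [Field K] : MvPolynomial (Fin 3) K := X 0 ^ 2 + X 1 ^ 2 + X 2 ^ 2

/-- the linear forms -/
def forms (K : Type) [Field K] : Set (MvPolynomial (Fin 3) K) :=
  {X 2, X 0 - C 1 * X 2, X 0 - C (-1) * X 2, X 0 - C 2 * X 2, X 1 - C 1 * X 2, X 1 - C (-1) * X 2}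

theorem der_sq {n : ℕ} (θ : Derivation K (MvPolynomial (Fin n) K) (MvPolynomial (Fin n) K))
    (p : MvPolynomial (Fin n) K) : θ (p ^ 2) = 2 * p * θ p := by
  rw [Derivation.leibniz_pow]
  simp
  ring

theorem stIdeal_forms [CharZero K] :
    stIdeal (forms K) (et K) = Ideal.span {X 0 * f1 K, X 1 * f2 K, et K} := by
  have h2 : (C (2 : K) : MvPolynomial (Fin 3) K) = 2 := map_ofNat C 2
  have hinv : (C (2⁻¹ : K) : MvPolynomial (Fin 3) K) * 2 = 1 := by
    rw [← h2, ← C_mul, inv_mul_cancel₀ two_ne_zero, C_1]
  apply le_antisymm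
  · unfold stIdeal
    rw [Ideal.span_le]
    rintro g ⟨θ, hθ, rfl⟩
    have hC : ∀ c : K, θ (C c) = 0 := fun c => by
      have := θ.map_algebraMap c
      rwa [MvPolynomial.algebraMap_eq] at this
    have hlin : ∀ (i : Fin 3) (a : K), θ (X i - C a * X 2) = θ (X i) - C a * θ (X 2) := by
      intro i a
      rw [map_sub, Derivation.leibniz, hC]
      simp
    have h0 : (X 2 : MvPolynomial (Fin 3) K) ∣ θ (X 2) :=
      Ideal.mem_span_singleton.1 (hθ (X 2) (by simp [forms]))
    obtain ⟨c, hc⟩ := h0
    have hx : ∀ (i : Fin 3) (a : K), (X i - C a * X 2 : MvPolynomial (Fin 3) K) ∈ forms K →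
        (X i - C a * X 2 : MvPolynomial (Fin 3) K) ∣ θ (X i) - X i * c := by
      intro i a ha
      have h3 := Ideal.mem_span_singleton.1 (hθ _ ha)
      rw [hlin, hc] at h3
      have h4 : θ (X i) - X i * c = (θ (X i) - C a * (X 2 * c)) - (X i - C a * X 2) * c := by ring
      rw [h4]
      exact dvd_sub h3 (dvd_mul_right _ _)
    have hne1 : (1 : K) ≠ -1 := by norm_num
    have hne2 : (1 : K) ≠ 2 := by norm_num
    have hne3 : (-1 : K) ≠ 2 := by norm_num
    have hd1 : f1 K ∣ θ (X 0) - X 0 * c := by
      unfold f1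
      have e1 := (rp (n := 3) (i := 0) (j := 2) (by decide) hne1).mul_dvd
        (hx 0 1 (by simp [forms])) (hx 0 (-1) (by simp [forms]))
      refine IsRelPrime.mul_dvd ?_ e1 (hx 0 2 (by simp [forms]))
      exact (rp (by decide) hne2).mul_left (rp (by decide) hne3)
    have hd2 : f2 K ∣ θ (X 1) - X 1 * c := by
      unfold f2
      exact (rp (n := 3) (i := 1) (j := 2) (by decide) hne1).mul_dvd
        (hx 1 1 (by simp [forms])) (hx 1 (-1) (by simp [forms]))
    obtain ⟨u, hu⟩ := hd1
    obtain ⟨v, hv⟩ := hd2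
    have hx0 : θ (X 0) = X 0 * c + f1 K * u := by linear_combination hu
    have hx1 : θ (X 1) = X 1 * c + f2 K * v := by linear_combination hv
    have : θ (et K) = (2 * u) * (X 0 * f1 K) + (2 * v) * (X 1 * f2 K) + (2 * c) * et K := by
      unfold et
      rw [map_add, map_add, der_sq, der_sq, der_sq, hx0, hx1, hc]
      ring
    simp only []
    rw [this]
    apply Ideal.add_mem
    · apply Ideal.add_mem
      · exact Ideal.mul_mem_left _ _ (Ideal.subset_span (by simp))
      · exact Ideal.mul_mem_left _ _ (Ideal.subset_span (by simp))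
    · exact Ideal.mul_mem_left _ _ (Ideal.subset_span (by simp))
  · rw [Ideal.span_le]
    have hmem : ∀ θ : Derivation K (MvPolynomial (Fin 3) K) (MvPolynomial (Fin 3) K),
        θ ∈ logDer (forms K) → θ (et K) ∈ stIdeal (forms K) (et K) := fun θ hθ =>
      Ideal.subset_span ⟨θ, hθ, rfl⟩
    have hlog : ∀ θ : Derivation K (MvPolynomial (Fin 3) K) (MvPolynomial (Fin 3) K),
        (X 2 ∣ θ (X 2)) → (∀ a : K, (a = 1 ∨ a = -1 ∨ a = 2) →
          (X 0 - C a * X 2) ∣ θ (X 0) - C a * θ (X 2)) →
        (∀ a : K, (a = 1 ∨ a = -1) → (X 1 - C a * X 2) ∣ θ (X 1) - C a * θ (X 2)) →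
        θ ∈ logDer (forms K) := by
      intro θ h1 h3 h4 α hα
      have hC : ∀ c : K, θ (C c) = 0 := fun c => by
        have := θ.map_algebraMap c
        rwa [MvPolynomial.algebraMap_eq] at this
      have hlin : ∀ (i : Fin 3) (a : K), θ (X i - C a * X 2) = θ (X i) - C a * θ (X 2) := by
        intro i a
        rw [map_sub, Derivation.leibniz, hC]
        simp
      simp only [forms, Set.mem_insert_iff, Set.mem_singleton_iff] at hα
      rw [Ideal.mem_span_singleton]
      rcases hα with rfl | rfl | rfl | rfl | rfl | rfl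
      · exact h1
      · rw [hlin]; exact h3 1 (by simp)
      · rw [hlin]; exact h3 (-1) (by simp)
      · rw [hlin]; exact h3 2 (by simp)
      · rw [hlin]; exact h4 1 (by simp)
      · rw [hlin]; exact h4 (-1) (by simp)
    have hhalf : ∀ p : MvPolynomial (Fin 3) K, 2 * p ∈ stIdeal (forms K) (et K) →
        p ∈ stIdeal (forms K) (et K) := by
      intro p hp
      have : p = C (2⁻¹ : K) * (2 * p) := by
        rw [← mul_assoc, hinv, one_mul]
      rw [this]
      exact Ideal.mul_mem_left _ _ hp
    rintro g hg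
    simp only [Set.mem_insert_iff, Set.mem_singleton_iff] at hg
    rcases hg with rfl | rfl | rfl
    · apply hhalf
      have h3 := hmem (mkDerivation K ![f1 K, 0, 0]) (by
        apply hlog
        · simp [mkDerivation_X]
        · intro a ha
          rw [mkDerivation_X, mkDerivation_X]
          simp only [Matrix.cons_val_zero, Matrix.cons_val, mul_zero, sub_zero]
          unfold f1
          rcases ha with rfl | rfl | rfl
          · exact (dvd_mul_right _ _).mul_right _
          · exact (dvd_mul_left _ _).mul_right _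
          · exact dvd_mul_left _ _
        · intro a _
          rw [mkDerivation_X, mkDerivation_X]
          simp)
      unfold et at h3 ⊢
      rw [map_add, map_add, der_sq, der_sq, der_sq, mkDerivation_X, mkDerivation_X,
        mkDerivation_X] at h3
      simpa [mul_assoc] using h3
    · apply hhalf
      have h3 := hmem (mkDerivation K ![0, f2 K, 0]) (by
        apply hlog
        · simp [mkDerivation_X]
        · intro a _
          rw [mkDerivation_X, mkDerivation_X]
          simp
        · intro a ha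
          rw [mkDerivation_X, mkDerivation_X]
          simp only [Matrix.cons_val_one, Matrix.cons_val, mul_zero, sub_zero]
          unfold f2
          rcases ha with rfl | rfl
          · exact dvd_mul_right _ _
          · exact dvd_mul_left _ _)
      unfold et at h3 ⊢
      rw [map_add, map_add, der_sq, der_sq, der_sq, mkDerivation_X, mkDerivation_X,
        mkDerivation_X] at h3
      simpa [mul_assoc] using h3
    · apply hhalf
      have h3 := hmem (mkDerivation K (fun i => X i)) (by
        apply hlog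
        · simp [mkDerivation_X]
        · intro a _
          rw [mkDerivation_X, mkDerivation_X]
        · intro a _
          rw [mkDerivation_X, mkDerivation_X])
      have h4 : (mkDerivation K (fun i : Fin 3 => (X i : MvPolynomial (Fin 3) K))) (et K) =
          2 * et K := by
        unfold et
        rw [map_add, map_add, der_sq, der_sq, der_sq, mkDerivation_X, mkDerivation_X,
          mkDerivation_X]
        ring
      rw [h4] at h3
      exact h3


/-- the grid -/
noncomputable def al (K : Type) [Field K] : Fin 4 → K := ![0, 1, -1, 2]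

/-- the grid -/
noncomputable def be (K : Type) [Field K] : Fin 3 → K := ![0, 1, -1]

/-- evaluation at the twelve points of the grid -/
noncomputable def ev (K : Type) [Field K] :
    MvPolynomial (Fin 3) K →ₗ[K] (Fin 4 × Fin 3 → K) :=
  LinearMap.pi fun g => (aeval (![al K g.1, be K g.2, 1] : Fin 3 → K)).toLinearMap

theorem ev_apply (f : MvPolynomial (Fin 3) K) (g : Fin 4 × Fin 3) :
    ev K f g = eval ![al K g.1, be K g.2, 1] f := by
  simp [ev, LinearMap.pi_apply, MvPolynomial.aeval_eq_eval]

theorem ev_F1 (u : MvPolynomial (Fin 3) K) : ev K (X 0 * f1 K * u) = 0 := by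
  funext g
  rw [ev_apply, map_mul]
  have : eval ![al K g.1, be K g.2, 1] (X 0 * f1 K) = 0 := by
    obtain ⟨i, j⟩ := g
    unfold f1
    simp only [map_mul, map_sub, eval_X, eval_C]
    fin_cases i <;> simp [al]
  rw [this, zero_mul]
  rfl

theorem ev_F2 (u : MvPolynomial (Fin 3) K) : ev K (X 1 * f2 K * u) = 0 := by
  funext g
  rw [ev_apply, map_mul]
  have : eval ![al K g.1, be K g.2, 1] (X 1 * f2 K) = 0 := by
    obtain ⟨i, j⟩ := g
    unfold f2
    simp only [map_mul, map_sub, eval_X, eval_C]
    fin_cases j <;> simp [be]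
  rw [this, zero_mul]
  rfl

/-- the value of `et` at the points of the grid -/
noncomputable def cc (K : Type) [Field K] (g : Fin 4 × Fin 3) : K :=
  al K g.1 ^ 2 + be K g.2 ^ 2 + 1

theorem cc_ne [CharZero K] (g : Fin 4 × Fin 3) : cc K g ≠ 0 := by
  obtain ⟨i, j⟩ := g
  unfold cc al be
  fin_cases i <;> fin_cases j <;> norm_num

theorem ev_et (w : MvPolynomial (Fin 3) K) (g : Fin 4 × Fin 3) :
    ev K (et K * w) g = cc K g * ev K w g := by
  rw [ev_apply, ev_apply, map_mul]
  congr 1
  unfold et cc
  simp

/-- the vectors `x ^ i y ^ j` on the grid -/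
noncomputable def vv (K : Type) [Field K] (p : Fin 4 × Fin 3) : Fin 4 × Fin 3 → K := fun g =>
  al K g.1 ^ (p.1 : ℕ) * be K g.2 ^ (p.2 : ℕ)

theorem vv_indep [CharZero K] : LinearIndependent K (vv K) := by
  rw [Fintype.linearIndependent_iff]
  intro c hc
  have key : ∀ g : Fin 4 × Fin 3, ∑ p : Fin 4 × Fin 3, c p * (al K g.1 ^ (p.1 : ℕ) *
      be K g.2 ^ (p.2 : ℕ)) = 0 := by
    intro g
    have := congrFun hc g
    simpa [vv, Finset.sum_apply] using this
  -- first the second variable
  have h1 : ∀ i : Fin 4, ∀ j : Fin 3, ∑ a : Fin 4, c (a, j) * al K i ^ (a : ℕ) = 0 := by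
    intro i
    have e0 := key (i, 0)
    have e1 := key (i, 1)
    have e2 := key (i, 2)
    simp only [Fintype.sum_prod_type, Fin.sum_univ_three] at e0 e1 e2
    simp only [be, Matrix.cons_val_zero, Matrix.cons_val_one, Matrix.cons_val, Fin.val_zero,
      Fin.val_one, Fin.val_two, pow_zero, pow_one, mul_one, mul_zero, zero_pow, ne_eq,
      OfNat.ofNat_ne_zero, not_false_eq_true, add_zero, one_pow, even_two, Even.neg_pow,
      Finset.sum_add_distrib, mul_neg] at e0 e1 e2
    have s0 : ∑ a : Fin 4, c (a, 0) * al K i ^ (a : ℕ) = 0 := e0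
    have s1 : (∑ a : Fin 4, c (a, 1) * al K i ^ (a : ℕ)) +
        ∑ a : Fin 4, c (a, 2) * al K i ^ (a : ℕ) = 0 := by
      linear_combination e1 - s0
    have s2 : -(∑ a : Fin 4, c (a, 1) * al K i ^ (a : ℕ)) +
        ∑ a : Fin 4, c (a, 2) * al K i ^ (a : ℕ) = 0 := by
      have : ∑ a : Fin 4, -(c (a, 1) * al K i ^ (a : ℕ)) =
        -(∑ a : Fin 4, c (a, 1) * al K i ^ (a : ℕ)) := Finset.sum_neg_distrib _
      linear_combination e2 - s0 - this
    have t2 : ∑ a : Fin 4, c (a, 2) * al K i ^ (a : ℕ) = 0 := by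
      have : (2 : K) * ∑ a : Fin 4, c (a, 2) * al K i ^ (a : ℕ) = 0 := by
        linear_combination s1 + s2
      exact (mul_eq_zero.1 this).resolve_left two_ne_zero
    have t1 : ∑ a : Fin 4, c (a, 1) * al K i ^ (a : ℕ) = 0 := by
      linear_combination s1 - t2
    intro j
    fin_cases j
    · exact s0
    · exact t1
    · exact t2
  rintro ⟨a, j⟩
  have e0 := h1 0 j
  have e1 := h1 1 j
  have e2 := h1 2 j
  have e3 := h1 3 j
  simp only [Fin.sum_univ_four, al, Matrix.cons_val_zero, Matrix.cons_val_one, Matrix.cons_val]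
    at e0 e1 e2 e3
  norm_num at e0 e1 e2 e3
  have t0 : c (0, j) = 0 := e0
  have t2 : c (2, j) = 0 := by
    have : (2 : K) * c (2, j) = 0 := by linear_combination e1 + e2 - 2 * t0
    exact (mul_eq_zero.1 this).resolve_left two_ne_zero
  have t3 : c (3, j) = 0 := by
    have : (6 : K) * c (3, j) = 0 := by linear_combination e3 - 2 * e1 + t0 - 2 * t2
    exact (mul_eq_zero.1 this).resolve_left (by norm_num)
  have t1 : c (1, j) = 0 := by linear_combination e1 - t0 - t2 - t3
  fin_cases a
  · exact t0
  · exact t1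
  · exact t2
  · exact t3

end Pool.Agent.Q141.ST
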