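import Mathlib

/-!
# Arrangements, Poincaré polynomials, Solomon-Terao algebras
-/

set_option autoImplicit false

open MvPolynomial Finset

namespace Pool.Agent.Q141.ST

open Classical in
section

variable {K : Type} [Field K] {l : ℕ}

/-- The linear form with coefficients `a`. -/
noncomputable def form (a : Fin l → K) : MvPolynomial (Fin l) K := ∑ i, C (a i) * X i

/-- The hyperplane on which the linear form with coefficients `a` vanishes. -/
def hyp (a : Fin l → K) : Submodule K (Fin l → K) :=
  LinearMap.ker (∑ i, a i • (LinearMap.proj i : (Fin l → K) →ₗ[K] K))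

theorem mem_hyp {a x : Fin l → K} : x ∈ hyp a ↔ ∑ i, a i * x i = 0 := by
  simp [hyp, LinearMap.mem_ker]

/-- A central arrangement in `K ^ l`, given by its linear forms: a finite set of coefficient vectors,
nonzero and with different hyperplanes. -/
structure IsArrangement (A : Finset (Fin l → K)) : Prop where
  ne : ∀ a ∈ A, a ≠ 0
  inj : ∀ a ∈ A, ∀ b ∈ A, hyp a = hyp b → a = b

/-- The set `L` of all intersections of `T` with hyperplanes of `A` (including `T`). -/
noncomputable def flats (T : Submodule K (Fin l → K)) (A : Finset (Fin l → K)) :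
    Finset (Submodule K (Fin l → K)) := A.powerset.image fun B => T ⊓ B.inf hyp

/-- `R = ∑_{Y ∈ L} μ(Y) (-t) ^ codim Y`, where `L` is the set of the intersections of `T` with
hyperplanes of `A`, the codimension is taken in `T` and `μ` is the Möbius function of `L`,
`μ(T) = 1`. -/
def IsPoincare (T : Submodule K (Fin l → K)) (A : Finset (Fin l → K)) (R : Polynomial ℚ) : Prop :=
  ∃ μ : Submodule K (Fin l → K) → ℤ,
    (∀ Y ∈ flats T A, ∑ Z ∈ (flats T A).filter (fun Z => Y ≤ Z), μ Z = if Y = T then 1 else 0) ∧
    R = ∑ Y ∈ flats T A, (μ Y : Polynomial ℚ) *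
      (-Polynomial.X) ^ (Module.finrank K T - Module.finrank K Y)

/-- Whitney's sum -/
noncomputable def W (T : Submodule K (Fin l → K)) (A : Finset (Fin l → K)) : Polynomial ℚ :=
  ∑ B ∈ A.powerset, (-1) ^ B.card * (-Polynomial.X) ^
    (Module.finrank K T - Module.finrank K (T ⊓ B.inf hyp : Submodule K (Fin l → K)))

theorem isPoincare_W {T : Submodule K (Fin l → K)} {A : Finset (Fin l → K)}
    (h : ∀ a ∈ A, ¬ T ≤ hyp a) : IsPoincare T A (W T A) := by
  refine ⟨fun Y => ∑ B ∈ A.powerset.filter (fun B => T ⊓ B.inf hyp = Y), (-1) ^ B.card, ?_, ?_⟩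
  · intro Y hY
    obtain ⟨B0, hB0, rfl⟩ := Finset.mem_image.1 hY
    set Y := T ⊓ B0.inf hyp with hYd
    -- the sum over the subsets of the hyperplanes containing `Y`
    have h1 : ∑ Z ∈ (flats T A).filter (fun Z => Y ≤ Z),
        ∑ B ∈ A.powerset.filter (fun B => T ⊓ B.inf hyp = Z), ((-1 : ℤ)) ^ B.card =
        ∑ B ∈ (A.filter (fun a => Y ≤ hyp a)).powerset, (-1 : ℤ) ^ B.card := by
      have h2 : (A.filter (fun a => Y ≤ hyp a)).powerset =
          A.powerset.filter (fun B => Y ≤ T ⊓ B.inf hyp) := by
        ext B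
        simp only [Finset.mem_powerset, Finset.mem_filter, le_inf_iff, Finset.le_inf_iff]
        constructor
        · intro hB
          exact ⟨fun x hx => (Finset.mem_filter.1 (hB hx)).1, inf_le_left,
            fun b hb => (Finset.mem_filter.1 (hB hb)).2⟩
        · rintro ⟨hB1, -, hB2⟩ x hx
          exact Finset.mem_filter.2 ⟨hB1 hx, hB2 x hx⟩
      rw [h2]
      rw [← Finset.sum_fiberwise_of_maps_to (s := A.powerset.filter (fun B => Y ≤ T ⊓ B.inf hyp))
        (t := (flats T A).filter (fun Z => Y ≤ Z)) (g := fun B => T ⊓ B.inf hyp)]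
      · apply Finset.sum_congr rfl
        intro Z hZ
        apply Finset.sum_congr _ fun _ _ => rfl
        ext B
        simp only [Finset.mem_filter]
        constructor
        · rintro ⟨h3, h4⟩
          exact ⟨⟨h3, by rw [h4]; exact (Finset.mem_filter.1 hZ).2⟩, h4⟩
        · rintro ⟨⟨h3, -⟩, h4⟩
          exact ⟨h3, h4⟩
      · intro B hB
        obtain ⟨h3, h4⟩ := Finset.mem_filter.1 hB
        exact Finset.mem_filter.2 ⟨Finset.mem_image_of_mem _ h3, h4⟩
    rw [h1, Finset.sum_powerset_neg_one_pow_card]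
    congr 1
    rw [eq_iff_iff, Finset.filter_eq_empty_iff]
    constructor
    · intro h3
      have h4 : B0 = ∅ := by
        by_contra h5
        obtain ⟨b, hb⟩ := Finset.nonempty_iff_ne_empty.2 h5
        exact h3 (Finset.mem_powerset.1 hB0 hb) (inf_le_right.trans (Finset.inf_le hb))
      rw [hYd, h4]
      simp
    · intro h3 a ha h4
      rw [h3] at h4
      exact h a ha h4
  · unfold W
    rw [← Finset.sum_fiberwise_of_maps_to (s := A.powerset) (t := flats T A)
      (g := fun B => T ⊓ B.inf hyp) (fun B hB => Finset.mem_image_of_mem _ hB)]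
    apply Finset.sum_congr rfl
    intro Y _
    push_cast
    rw [Finset.sum_mul]
    apply Finset.sum_congr rfl
    intro B hB
    rw [(Finset.mem_filter.1 hB).2]

theorem W_empty (T : Submodule K (Fin l → K)) : W T ∅ = 1 := by
  unfold W
  rw [Finset.powerset_empty, Finset.sum_singleton, Finset.inf_empty, inf_top_eq, Nat.sub_self]
  simp

theorem finrank_inf_hyp {T : Submodule K (Fin l → K)} {a : Fin l → K} (h : ¬ T ≤ hyp a) :
    Module.finrank K (T ⊓ hyp a : Submodule K (Fin l → K)) + 1 = Module.finrank K T := by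
  set g : (Fin l → K) →ₗ[K] K := ∑ i, a i • (LinearMap.proj i : (Fin l → K) →ₗ[K] K) with hg
  have h1 := LinearMap.finrank_range_add_finrank_ker (g.domRestrict T)
  have h2 : LinearMap.range (g.domRestrict T) = ⊤ := by
    apply LinearMap.range_eq_top.2
    apply LinearMap.surjective
    intro h3
    apply h
    intro x hx
    have := LinearMap.congr_fun h3 ⟨x, hx⟩
    simpa [hyp, LinearMap.mem_ker, hg] using this
  have h3 : Module.finrank K (LinearMap.ker (g.domRestrict T)) =
      Module.finrank K (T ⊓ hyp a : Submodule K (Fin l → K)) := by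
    have : (LinearMap.ker (g.domRestrict T)).map T.subtype = T ⊓ hyp a := by
      ext x
      simp only [Submodule.mem_map, LinearMap.mem_ker, Submodule.mem_inf]
      constructor
      · rintro ⟨y, hy, rfl⟩
        exact ⟨y.2, by simpa [hyp, LinearMap.mem_ker, hg] using hy⟩
      · rintro ⟨hx, hx'⟩
        exact ⟨⟨x, hx⟩, by simpa [hyp, LinearMap.mem_ker, hg] using hx', rfl⟩
    rw [← this, Submodule.finrank_map_subtype_eq]
  rw [h2, h3] at h1
  simp at h1
  omega

theorem W_insert {T : Submodule K (Fin l → K)} {s : Finset (Fin l → K)} {a : Fin l → K}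
    (ha : a ∉ s) (hT : ¬ T ≤ hyp a) : W T (insert a s) = W T s + Polynomial.X * W (T ⊓ hyp a) s := by
  unfold W
  rw [Finset.sum_powerset_insert ha, Finset.mul_sum]
  congr 1
  apply Finset.sum_congr rfl
  intro B hB
  have haB : a ∉ B := fun h => ha (Finset.mem_powerset.1 hB h)
  rw [Finset.card_insert_of_notMem haB, Finset.inf_insert, ← inf_assoc]
  have h1 := finrank_inf_hyp hT
  have h2 : Module.finrank K (T ⊓ hyp a ⊓ B.inf hyp : Submodule K (Fin l → K)) ≤
      Module.finrank K (T ⊓ hyp a : Submodule K (Fin l → K)) :=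
    Submodule.finrank_mono inf_le_left
  rw [show Module.finrank K T -
      Module.finrank K (T ⊓ hyp a ⊓ B.inf hyp : Submodule K (Fin l → K)) =
      (Module.finrank K (T ⊓ hyp a : Submodule K (Fin l → K)) -
      Module.finrank K (T ⊓ hyp a ⊓ B.inf hyp : Submodule K (Fin l → K))) + 1 by omega]
  ring

theorem W_insert_zero {T : Submodule K (Fin l → K)} {s : Finset (Fin l → K)} {a : Fin l → K}
    (ha : a ∉ s) (hT : T ≤ hyp a) : W T (insert a s) = 0 := by
  unfold W
  rw [Finset.sum_powerset_insert ha, ← Finset.sum_add_distrib]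
  apply Finset.sum_eq_zero
  intro B hB
  have haB : a ∉ B := fun h => ha (Finset.mem_powerset.1 hB h)
  rw [Finset.card_insert_of_notMem haB, Finset.inf_insert, ← inf_assoc, inf_eq_left.2 hT]
  ring

end

/-- The logarithmic derivations for a set of linear forms: `θ α ∈ α S` for all forms `α`. -/
def logDer {K : Type} [Field K] {l : ℕ} (L : Set (MvPolynomial (Fin l) K)) :
    Set (Derivation K (MvPolynomial (Fin l) K) (MvPolynomial (Fin l) K)) :=
  {θ | ∀ α ∈ L, θ α ∈ Ideal.span {α}}

/-- The Solomon-Terao ideal. -/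
noncomputable def stIdeal {K : Type} [Field K] {l : ℕ} (L : Set (MvPolynomial (Fin l) K))
    (η : MvPolynomial (Fin l) K) : Ideal (MvPolynomial (Fin l) K) :=
  Ideal.span ((fun θ => θ η) '' logDer L)

/-- The Hilbert function of `S / I`: the dimension of the image of the forms of degree `d`. -/
noncomputable def hilb {K : Type} [Field K] {l : ℕ} (I : Ideal (MvPolynomial (Fin l) K)) (d : ℕ) :
    ℕ :=
  Module.finrank K ((homogeneousSubmodule (Fin l) K d).map (Ideal.Quotient.mkₐ K I).toLinearMap)

/-- Non-degenerate on the subspace `T`: the derivatives along `T` have no common zero on `T` but the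
origin. -/
def NonDegenerate {K : Type} [Field K] {l : ℕ} (η : MvPolynomial (Fin l) K)
    (T : Submodule K (Fin l → K)) : Prop :=
  ∀ x ∈ T, (∀ v ∈ T, ∑ i, v i * eval x (pderiv i η) = 0) → x = 0

/-- The composition of polynomials with the linear map `φ`. -/
noncomputable def pull {K : Type} [Field K] {l m : ℕ} (φ : (Fin m → K) →ₗ[K] (Fin l → K)) :
    MvPolynomial (Fin l) K →ₐ[K] MvPolynomial (Fin m) K :=
  aeval fun i => ∑ j, C (φ (Pi.single j 1) i) * X j

end Pool.Agent.Q141.ST
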