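import Pool.Agent.Q141.ST.Alg

/-!
# The Solomon-Terao algebra of two lines
-/

set_option autoImplicit false

open MvPolynomial Module

namespace Pool.Agent.Q141.ST

variable {K : Type} [Field K]

/-- the forms -/
def forms2 (K : Type) [Field K] : Set (MvPolynomial (Fin 2) K) := {X 0, X 1}

/-- `x ^ 2 + y ^ 2` -/
noncomputable def et2 (K : Type) [Field K] : MvPolynomial (Fin 2) K := X 0 ^ 2 + X 1 ^ 2

/-- the ideal -/
noncomputable def I2 (K : Type) [Field K] : Ideal (MvPolynomial (Fin 2) K) :=
  Ideal.span {X 0 ^ 2, X 1 ^ 2}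

theorem stIdeal_forms2 [CharZero K] : stIdeal (forms2 K) (et2 K) = I2 K := by
  have h2 : (C (2 : K) : MvPolynomial (Fin 2) K) = 2 := map_ofNat C 2
  have hinv : (C (2⁻¹ : K) : MvPolynomial (Fin 2) K) * 2 = 1 := by
    rw [← h2, ← C_mul, inv_mul_cancel₀ two_ne_zero, C_1]
  apply le_antisymm
  · unfold stIdeal
    rw [Ideal.span_le]
    rintro g ⟨θ, hθ, rfl⟩
    obtain ⟨c, hc⟩ := Ideal.mem_span_singleton.1 (hθ (X 0) (by simp [forms2]))
    obtain ⟨d, hd⟩ := Ideal.mem_span_singleton.1 (hθ (X 1) (by simp [forms2]))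
    have : θ (et2 K) = (2 * c) * X 0 ^ 2 + (2 * d) * X 1 ^ 2 := by
      unfold et2
      rw [map_add, der_sq, der_sq, hc, hd]
      ring
    simp only []
    rw [this]
    exact Ideal.add_mem _ (Ideal.mul_mem_left _ _ (Ideal.subset_span (by simp)))
      (Ideal.mul_mem_left _ _ (Ideal.subset_span (by simp)))
  · unfold I2
    rw [Ideal.span_le]
    have hmem : ∀ θ : Derivation K (MvPolynomial (Fin 2) K) (MvPolynomial (Fin 2) K),
        θ ∈ logDer (forms2 K) → θ (et2 K) ∈ stIdeal (forms2 K) (et2 K) := fun θ hθ =>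
      Ideal.subset_span ⟨θ, hθ, rfl⟩
    have hhalf : ∀ p : MvPolynomial (Fin 2) K, 2 * p ∈ stIdeal (forms2 K) (et2 K) →
        p ∈ stIdeal (forms2 K) (et2 K) := by
      intro p hp
      have : p = C (2⁻¹ : K) * (2 * p) := by
        rw [← mul_assoc, hinv, one_mul]
      rw [this]
      exact Ideal.mul_mem_left _ _ hp
    rintro g hg
    simp only [Set.mem_insert_iff, Set.mem_singleton_iff] at hg
    rcases hg with rfl | rfl
    · apply hhalf
      have h3 := hmem (mkDerivation K ![X 0, 0]) (by
        rintro α hα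
        simp only [forms2, Set.mem_insert_iff, Set.mem_singleton_iff] at hα
        rcases hα with rfl | rfl
        · rw [mkDerivation_X]
          exact Ideal.mem_span_singleton_self _
        · rw [mkDerivation_X]
          simp)
      unfold et2 at h3 ⊢
      rw [map_add, der_sq, der_sq, mkDerivation_X, mkDerivation_X] at h3
      simp only [Matrix.cons_val_zero, Matrix.cons_val_one, mul_zero, add_zero] at h3
      convert h3 using 1
      ring
    · apply hhalf
      have h3 := hmem (mkDerivation K ![0, X 1]) (by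
        rintro α hα
        simp only [forms2, Set.mem_insert_iff, Set.mem_singleton_iff] at hα
        rcases hα with rfl | rfl
        · rw [mkDerivation_X]
          simp
        · rw [mkDerivation_X]
          exact Ideal.mem_span_singleton_self _)
      unfold et2 at h3 ⊢
      rw [map_add, der_sq, der_sq, mkDerivation_X, mkDerivation_X] at h3
      simp only [Matrix.cons_val_zero, Matrix.cons_val_one, mul_zero, zero_add] at h3
      convert h3 using 1
      ring

/-- exponents -/
noncomputable def ex (p : Fin 2 × Fin 2) : Fin 2 →₀ ℕ :=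
  Finsupp.equivFunOnFinite.symm ![(p.1 : ℕ), (p.2 : ℕ)]

/-- the coefficients of `1, x, y, x y` -/
noncomputable def co (K : Type) [Field K] : MvPolynomial (Fin 2) K →ₗ[K] (Fin 2 × Fin 2 → K) :=
  LinearMap.pi fun p => MvPolynomial.lcoeff K (ex p)

theorem co_apply (f : MvPolynomial (Fin 2) K) (p : Fin 2 × Fin 2) : co K f p = coeff (ex p) f := by
  simp [co, LinearMap.pi_apply]

/-- the exponents of degree `d` -/
def idx2 (d : ℕ) : Finset (Fin 2 × Fin 2) :=
  Finset.univ.filter fun p => (p.1 : ℕ) + (p.2 : ℕ) = d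

theorem ex_inj {p q : Fin 2 × Fin 2} (h : ex p = ex q) : p = q := by
  have h0 := DFunLike.congr_fun h 0
  have h1 := DFunLike.congr_fun h 1
  simp [ex] at h0 h1
  exact Prod.ext (Fin.ext h0) (Fin.ext h1)

theorem co_I2 {f : MvPolynomial (Fin 2) K} (hf : f ∈ I2 K) : co K f = 0 := by
  unfold I2 at hf
  rw [Ideal.mem_span_pair] at hf
  obtain ⟨u, v, rfl⟩ := hf
  funext p
  rw [co_apply, coeff_add, X_pow_eq_monomial, X_pow_eq_monomial, coeff_mul_monomial',
    coeff_mul_monomial', if_neg, if_neg]
  · simp
  · intro h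
    have := h 1
    simp [ex] at this
    omega
  · intro h
    have := h 0
    simp [ex] at this
    omega

theorem deg2 {f : MvPolynomial (Fin 2) K} {d : ℕ} (hf : f.IsHomogeneous d) {s : Fin 2 →₀ ℕ}
    (hs : coeff s f ≠ 0) : s 0 + s 1 = d := by
  rw [← hf hs]
  simp [Finsupp.weight_apply, Finsupp.sum_fintype, Fin.sum_univ_two]

theorem hilb_I2 (d : ℕ) : hilb (I2 K) d = (idx2 d).card := by
  have hfin : FiniteDimensional K (homogeneousSubmodule (Fin 2) K d) :=
    Module.Finite.iff_fg.2 (homogeneousSubmodule_fg _ _ d)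
  have hker : LinearMap.ker (Ideal.Quotient.mkₐ K (I2 K)).toLinearMap =
      (I2 K).restrictScalars K := by
    ext f
    simp [LinearMap.mem_ker, Ideal.Quotient.eq_zero_iff_mem]
  have h1 := fr (homogeneousSubmodule (Fin 2) K d) (Ideal.Quotient.mkₐ K (I2 K)).toLinearMap (co K)
    (by
      rintro f ⟨hf, hf0⟩
      rw [hker]
      change f ∈ I2 K
      rw [f.as_sum]
      apply Ideal.sum_mem
      intro s hs
      have h3 : (monomial s (coeff s f) : MvPolynomial (Fin 2) K) =
          C (coeff s f) * (X 0 ^ (s 0) * X 1 ^ (s 1)) := by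
        rw [monomial_eq, Finsupp.prod_fintype _ _ (by simp), Fin.prod_univ_two]
      rw [h3]
      apply Ideal.mul_mem_left
      by_cases h0 : 2 ≤ s 0
      · apply Ideal.mul_mem_right
        obtain ⟨k, hk⟩ := Nat.exists_eq_add_of_le h0
        rw [hk, pow_add]
        exact Ideal.mul_mem_right _ _ (Ideal.subset_span (by simp))
      · by_cases h1 : 2 ≤ s 1
        · apply Ideal.mul_mem_left
          obtain ⟨k, hk⟩ := Nat.exists_eq_add_of_le h1
          rw [hk, pow_add]
          exact Ideal.mul_mem_right _ _ (Ideal.subset_span (by simp))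
        · exfalso
          have h4 : s = ex (⟨s 0, by omega⟩, ⟨s 1, by omega⟩) := by
            ext i
            fin_cases i <;> simp [ex]
          apply mem_support_iff.1 hs
          have h5 := congrFun (show co K f = 0 from hf0) (⟨s 0, by omega⟩, ⟨s 1, by omega⟩)
          rw [co_apply, ← h4] at h5
          exact h5)
  have h2 : (homogeneousSubmodule (Fin 2) K d ⊓ LinearMap.ker (Ideal.Quotient.mkₐ K
      (I2 K)).toLinearMap : Submodule K (MvPolynomial (Fin 2) K)).map (co K) = ⊥ := by
    rw [hker, eq_bot_iff]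
    rintro _ ⟨f, ⟨-, hf⟩, rfl⟩
    exact co_I2 hf
  rw [h2, finrank_bot, add_zero] at h1
  unfold hilb
  rw [h1]
  have h3 : (homogeneousSubmodule (Fin 2) K d).map (co K) =
      Submodule.span K (Set.range fun p : idx2 d => (Pi.basisFun K (Fin 2 × Fin 2)) p) := by
    apply le_antisymm
    · rintro _ ⟨f, hf, rfl⟩
      have h4 : co K f = ∑ p : Fin 2 × Fin 2, (co K f p) • (Pi.basisFun K (Fin 2 × Fin 2)) p := by
        have := (Pi.basisFun K (Fin 2 × Fin 2)).sum_repr (co K f)
        simpa using this.symm
      rw [h4]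
      apply Submodule.sum_mem
      intro p _
      by_cases hp : p ∈ idx2 d
      · exact Submodule.smul_mem _ _ (Submodule.subset_span ⟨⟨p, hp⟩, rfl⟩)
      · have h5 : co K f p = 0 := by
          rw [co_apply]
          by_contra h6
          have h7 := deg2 hf h6
          apply hp
          simp only [idx2, Finset.mem_filter, Finset.mem_univ, true_and]
          simpa [ex] using h7
        rw [h5, zero_smul]
        exact Submodule.zero_mem _
    · rw [Submodule.span_le]
      rintro _ ⟨⟨p, hp⟩, rfl⟩
      refine ⟨monomial (ex p) 1, ?_, ?_⟩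
      · simp only [SetLike.mem_coe, mem_homogeneousSubmodule]
        apply isHomogeneous_monomial
        simp only [idx2, Finset.mem_filter, Finset.mem_univ, true_and] at hp
        rw [← hp]
        simp [Finsupp.degree_eq_sum, Fin.sum_univ_two, ex]
      · funext q
        rw [co_apply, coeff_monomial]
        by_cases hpq : p = q
        · subst hpq
          simp
        · rw [if_neg (fun h => hpq (ex_inj h))]
          simp [Ne.symm hpq]
  rw [h3]
  have h4 : LinearIndependent K (fun p : idx2 d => (Pi.basisFun K (Fin 2 × Fin 2)) p) :=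
    (Pi.basisFun K (Fin 2 × Fin 2)).linearIndependent.comp _ Subtype.val_injective
  rw [finrank_span_eq_card h4, Fintype.card_coe]

end Pool.Agent.Q141.ST
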