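import Pool.Agent.Q141.ST.Hilb
import Pool.Agent.Q141.ST.Two

/-!
# The grid arrangement
-/

set_option autoImplicit false

open MvPolynomial Module

namespace Pool.Agent.Q141.ST

open scoped Classical

variable {K : Type} [Field K]

/-- coefficients of the linear forms -/
def vz (K : Type) [Field K] : Fin 3 → K := ![0, 0, 1]
/-- coefficients of the linear forms -/
def va (a : K) : Fin 3 → K := ![1, 0, -a]
/-- coefficients of the linear forms -/
def vb (b : K) : Fin 3 → K := ![0, 1, -b]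

theorem mem_z {x : Fin 3 → K} : x ∈ hyp (vz K) ↔ x 2 = 0 := by
  simp [mem_hyp, Fin.sum_univ_three, vz]

theorem mem_a {a : K} {x : Fin 3 → K} : x ∈ hyp (va a) ↔ x 0 = a * x 2 := by
  rw [mem_hyp]
  simp only [Fin.sum_univ_three, va, Matrix.cons_val_zero, Matrix.cons_val_one, Matrix.cons_val,
    one_mul, zero_mul, add_zero]
  constructor
  · intro h; linear_combination h
  · intro h; linear_combination h

theorem mem_b {b : K} {x : Fin 3 → K} : x ∈ hyp (vb b) ↔ x 1 = b * x 2 := by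
  rw [mem_hyp]
  simp only [Fin.sum_univ_three, vb, Matrix.cons_val_zero, Matrix.cons_val_one, Matrix.cons_val,
    one_mul, zero_mul, zero_add]
  constructor
  · intro h; linear_combination h
  · intro h; linear_combination h

/-- the two horizontal lines -/
noncomputable def Bs (K : Type) [Field K] : Finset (Fin 3 → K) := {vb 1, vb (-1)}

/-- the five affine lines -/
noncomputable def As' (K : Type) [Field K] : Finset (Fin 3 → K) :=
  insert (va 1) (insert (va (-1)) (insert (va 2) (Bs K)))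

/-- the arrangement -/
noncomputable def As (K : Type) [Field K] : Finset (Fin 3 → K) := insert (vz K) (As' K)

theorem vb_inj {a b : K} (h : vb a = vb b) : a = b := by
  have := congrFun h 2
  simpa [vb] using this

theorem va_inj {a b : K} (h : va a = va b) : a = b := by
  have := congrFun h 2
  simpa [va] using this

theorem va_ne_vb {a b : K} : va a ≠ vb b := by
  intro h
  have := congrFun h 0
  simp [va, vb] at this

theorem vz_ne_va {a : K} : vz K ≠ va a := by
  intro h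
  have := congrFun h 0
  simp [va, vz] at this

theorem vz_ne_vb {b : K} : vz K ≠ vb b := by
  intro h
  have := congrFun h 1
  simp [vb, vz] at this

section

variable [CharZero K]

theorem h11 : (1 : K) ≠ -1 := by norm_num
theorem h12 : (1 : K) ≠ 2 := by norm_num
theorem h13 : (-1 : K) ≠ 2 := by norm_num

theorem b_notMem : vb (1 : K) ∉ ({vb (-1)} : Finset (Fin 3 → K)) := by
  rw [Finset.mem_singleton]
  exact fun h => h11 (vb_inj h)

/-- `W` of the two lines: the general case -/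
theorem W_Bs_gen {T : Submodule K (Fin 3 → K)} (h1 : ¬ T ≤ hyp (vb 1)) (h2 : ¬ T ≤ hyp (vb (-1)))
    (h3 : ¬ T ⊓ hyp (vb 1) ≤ hyp (vb (-1))) : W T (Bs K) = (1 + Polynomial.X) ^ 2 := by
  unfold Bs
  have e1 : ∀ U : Submodule K (Fin 3 → K), ¬ U ≤ hyp (vb (-1)) →
      W U ({vb (-1)} : Finset (Fin 3 → K)) = 1 + Polynomial.X := by
    intro U hU
    have := W_insert (s := ∅) (Finset.notMem_empty _) hU
    rw [W_empty, W_empty] at this
    simpa using this
  have e2 := W_insert (T := T) b_notMem h1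
  rw [e1 _ h2, e1 _ h3] at e2
  rw [show (1 + Polynomial.X : Polynomial ℚ) ^ 2 =
    1 + Polynomial.X + Polynomial.X * (1 + Polynomial.X) by ring, ← e2]

/-- `W` of the two lines: the special case -/
theorem W_Bs_spec {T : Submodule K (Fin 3 → K)} (h1 : ¬ T ≤ hyp (vb 1)) (h2 : ¬ T ≤ hyp (vb (-1)))
    (h3 : T ⊓ hyp (vb 1) ≤ hyp (vb (-1))) : W T (Bs K) = 1 + Polynomial.X := by
  unfold Bs
  have e1 : W T ({vb (-1)} : Finset (Fin 3 → K)) = 1 + Polynomial.X := by
    have := W_insert (s := ∅) (Finset.notMem_empty _) h2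
    rw [W_empty, W_empty] at this
    simpa using this
  have e3 : W (T ⊓ hyp (vb 1)) ({vb (-1)} : Finset (Fin 3 → K)) = 0 := by
    have := W_insert_zero (s := ∅) (Finset.notMem_empty _) h3
    simpa using this
  have e2 := W_insert (T := T) b_notMem h1
  rw [e1, e3, mul_zero, add_zero] at e2
  rw [← e2]

theorem n3 : va (2 : K) ∉ Bs K := by
  unfold Bs
  simp only [Finset.mem_insert, Finset.mem_singleton, not_or]
  exact ⟨va_ne_vb, va_ne_vb⟩

theorem n2 : va (-1 : K) ∉ insert (va 2) (Bs K) := by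
  unfold Bs
  simp only [Finset.mem_insert, Finset.mem_singleton, not_or]
  exact ⟨fun h => h13 (va_inj h), va_ne_vb, va_ne_vb⟩

theorem n1 : va (1 : K) ∉ insert (va (-1)) (insert (va 2) (Bs K)) := by
  unfold Bs
  simp only [Finset.mem_insert, Finset.mem_singleton, not_or]
  exact ⟨fun h => h11 (va_inj h), fun h => h12 (va_inj h), va_ne_vb, va_ne_vb⟩

theorem n0 : vz K ∉ As' K := by
  unfold As' Bs
  simp only [Finset.mem_insert, Finset.mem_singleton, not_or]
  exact ⟨vz_ne_va, vz_ne_va, vz_ne_va, vz_ne_vb, vz_ne_vb⟩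

/-- membership in the flats -/
theorem inf_mem {T : Submodule K (Fin 3 → K)} {S : Submodule K (Fin 3 → K)} {x : Fin 3 → K}
    (h1 : x ∈ T) (h2 : x ∈ S) : x ∈ T ⊓ S := ⟨h1, h2⟩

/-- vector with `x = a z`, `y = b z` -/
theorem v_a {a b c : K} : (![a * c, b * c, c] : Fin 3 → K) ∈ hyp (va a) := by
  rw [mem_a]; simp

theorem v_b {a b c : K} : (![a * c, b * c, c] : Fin 3 → K) ∈ hyp (vb b) := by
  rw [mem_b]; simp

theorem y_a (a : K) : (![0, 1, 0] : Fin 3 → K) ∈ hyp (va a) := by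
  rw [mem_a]; simp

/-- the plane `z = 0` -/
theorem W_z : W (hyp (vz K)) (As' K) = (1 + Polynomial.X) ^ 2 := by
  have hx : (![1, 0, 0] : Fin 3 → K) ∈ hyp (vz K) := by rw [mem_z]; simp
  have hy : (![0, 1, 0] : Fin 3 → K) ∈ hyp (vz K) := by rw [mem_z]; simp
  have hna : ∀ a : K, ¬ hyp (vz K) ≤ hyp (va a) := fun a h => by
    have := h hx
    rw [mem_a] at this
    simp at this
  have hnb : ∀ b : K, ¬ hyp (vz K) ≤ hyp (vb b) := fun b h => by
    have := h hy
    rw [mem_b] at this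
    simp at this
  have haa : ∀ a a' : K, hyp (vz K) ⊓ hyp (va a) ≤ hyp (va a') := fun a a' x hx => by
    have h1 := mem_z.1 hx.1
    have h2 := mem_a.1 hx.2
    rw [mem_a, h2, h1]; simp
  have hbb : ∀ b b' : K, hyp (vz K) ⊓ hyp (vb b) ≤ hyp (vb b') := fun b b' x hx => by
    have h1 := mem_z.1 hx.1
    have h2 := mem_b.1 hx.2
    rw [mem_b, h2, h1]; simp
  have hya : ∀ a : K, (![0, 1, 0] : Fin 3 → K) ∈ hyp (vz K) ⊓ hyp (va a) := fun a =>
    ⟨hy, y_a a⟩
  have hnab : ∀ a b : K, ¬ hyp (vz K) ⊓ hyp (va a) ≤ hyp (vb b) := fun a b h => by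
    have := h (hya a)
    rw [mem_b] at this
    simp at this
  unfold As'
  rw [W_insert n1 (hna 1), W_insert_zero n2 (haa 1 (-1)), mul_zero, add_zero,
    W_insert n2 (hna (-1)), W_insert_zero n3 (haa (-1) 2), mul_zero, add_zero,
    W_insert n3 (hna 2), W_Bs_spec (hnb 1) (hnb (-1)) (hbb 1 (-1)),
    W_Bs_spec (hnab 2 1) (hnab 2 (-1)) ((inf_le_inf_right _ inf_le_left).trans (hbb 1 (-1)))]
  ring

theorem W_all : W ⊤ (As K) = (1 + Polynomial.X) * (1 + 2 * Polynomial.X) * (1 + 3 * Polynomial.X) := by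
  have h0 : (0 : K) ≠ 1 := zero_ne_one
  have htop : ∀ x : Fin 3 → K, x ∈ (⊤ : Submodule K (Fin 3 → K)) := fun x => Submodule.mem_top
  have hnz : ¬ (⊤ : Submodule K (Fin 3 → K)) ≤ hyp (vz K) := fun h => by
    have := h (htop ![0, 0, 1])
    rw [mem_z] at this
    simp at this
  have hna : ∀ a : K, ¬ (⊤ : Submodule K (Fin 3 → K)) ≤ hyp (va a) := fun a h => by
    have := h (htop ![1, 0, 0])
    rw [mem_a] at this
    simp at this
  have hnb : ∀ b : K, ¬ (⊤ : Submodule K (Fin 3 → K)) ≤ hyp (vb b) := fun b h => by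
    have := h (htop ![0, 1, 0])
    rw [mem_b] at this
    simp at this
  -- `T = {x = a z}`
  have hnaa : ∀ a a' : K, a ≠ a' → ¬ (⊤ ⊓ hyp (va a) : Submodule K (Fin 3 → K)) ≤ hyp (va a') :=
    fun a a' haa h => by
      have := h ⟨htop _, v_a (a := a) (b := 0) (c := 1)⟩
      rw [mem_a] at this
      simp at this
      exact haa this
  have hnab : ∀ a b : K, ¬ (⊤ ⊓ hyp (va a) : Submodule K (Fin 3 → K)) ≤ hyp (vb b) := fun a b h => by
      have := h ⟨htop ![0, 1, 0], y_a a⟩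
      rw [mem_b] at this
      simp at this
  have hnbb : ∀ a b b' : K, b ≠ b' →
      ¬ (⊤ ⊓ hyp (va a) ⊓ hyp (vb b) : Submodule K (Fin 3 → K)) ≤ hyp (vb b') :=
    fun a b b' hbb h => by
      have := h ⟨⟨htop _, v_a (a := a) (b := b) (c := 1)⟩, v_b⟩
      rw [mem_b] at this
      simp at this
      exact hbb this
  have hnbb' : ∀ b b' : K, b ≠ b' → ¬ (⊤ ⊓ hyp (vb b) : Submodule K (Fin 3 → K)) ≤ hyp (vb b') :=
    fun b b' hbb h => hnbb 0 b b' hbb ((inf_le_inf_right _ inf_le_left).trans h)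
  -- two of the planes `x = a z`
  have hz2 : ∀ a a' : K, a ≠ a' → ∀ x ∈ (⊤ ⊓ hyp (va a) ⊓ hyp (va a') : Submodule K (Fin 3 → K)),
      x 0 = 0 ∧ x 2 = 0 := by
    intro a a' haa x hx
    have h1 := mem_a.1 hx.1.2
    have h2 := mem_a.1 hx.2
    have h3 : (a - a') * x 2 = 0 := by linear_combination h2 - h1
    have h4 : x 2 = 0 := (mul_eq_zero.1 h3).resolve_left (sub_ne_zero.2 haa)
    exact ⟨by rw [h1, h4, mul_zero], h4⟩
  have hyy : ∀ a a' : K, (![0, 1, 0] : Fin 3 → K) ∈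
      (⊤ ⊓ hyp (va a) ⊓ hyp (va a') : Submodule K (Fin 3 → K)) := fun a a' =>
    ⟨⟨htop _, y_a a⟩, y_a a'⟩
  have hn2b : ∀ a a' b : K, ¬ (⊤ ⊓ hyp (va a) ⊓ hyp (va a') : Submodule K (Fin 3 → K)) ≤
      hyp (vb b) := fun a a' b h => by
    have := h (hyy a a')
    rw [mem_b] at this
    simp at this
  have hl2b : ∀ a a' b b' : K, a ≠ a' →
      (⊤ ⊓ hyp (va a) ⊓ hyp (va a') ⊓ hyp (vb b) : Submodule K (Fin 3 → K)) ≤ hyp (vb b') :=
    fun a a' b b' haa x hx => by
      obtain ⟨-, h4⟩ := hz2 a a' haa x hx.1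
      have h2 := mem_b.1 hx.2
      rw [mem_b, h2, h4]; simp
  have hl2a : ∀ a a' a'' : K, a ≠ a' →
      (⊤ ⊓ hyp (va a) ⊓ hyp (va a') : Submodule K (Fin 3 → K)) ≤ hyp (va a'') :=
    fun a a' a'' haa x hx => by
      obtain ⟨h3, h4⟩ := hz2 a a' haa x hx
      rw [mem_a, h3, h4]; simp
  have ebs : W ⊤ (Bs K) = (1 + Polynomial.X) ^ 2 :=
    W_Bs_gen (hnb 1) (hnb (-1)) (hnbb' 1 (-1) h11)
  have eabs : ∀ a : K, W (⊤ ⊓ hyp (va a)) (Bs K) = (1 + Polynomial.X) ^ 2 := fun a =>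
    W_Bs_gen (hnab a 1) (hnab a (-1)) (hnbb a 1 (-1) h11)
  have eaabs : ∀ a a' : K, a ≠ a' → W (⊤ ⊓ hyp (va a) ⊓ hyp (va a')) (Bs K) = 1 + Polynomial.X :=
    fun a a' haa => W_Bs_spec (hn2b a a' 1) (hn2b a a' (-1)) (hl2b a a' 1 (-1) haa)
  have eaff : W ⊤ (As' K) = (1 + Polynomial.X) ^ 2 * (1 + 3 * Polynomial.X) +
      2 * Polynomial.X ^ 2 * (1 + Polynomial.X) := by
    unfold As'
    rw [W_insert n1 (hna 1), W_insert n2 (hna (-1)), W_insert n3 (hna 2), ebs, eabs 2,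
      W_insert n3 (hnaa (-1) 2 h13), eabs (-1), eaabs (-1) 2 h13,
      W_insert n2 (hnaa 1 (-1) h11), W_insert n3 (hnaa 1 2 h12), eabs 1, eaabs 1 2 h12,
      W_insert_zero n3 (hl2a 1 (-1) 2 h11)]
    ring
  unfold As
  rw [W_insert n0 hnz, eaff, top_inf_eq, W_z]
  ring

end

end Pool.Agent.Q141.ST
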