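import Pool.Agent.Q141.ST.Alg

/-!
# The Hilbert function of the Solomon-Terao algebra of the grid arrangement
-/

set_option autoImplicit false

open MvPolynomial Module

namespace Pool.Agent.Q141.ST

variable {K : Type} [Field K]

/-- the exponents of the reduced monomials of degree at most `d` -/
def idx (d : ℕ) : Finset (Fin 4 × Fin 3) :=
  Finset.univ.filter fun p => (p.1 : ℕ) + (p.2 : ℕ) ≤ d

/-- the reduced monomials -/
noncomputable def mon (K : Type) [Field K] (d : ℕ) (p : Fin 4 × Fin 3) : MvPolynomial (Fin 3) K :=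
  X 0 ^ (p.1 : ℕ) * X 1 ^ (p.2 : ℕ) * X 2 ^ (d - (p.1 : ℕ) - (p.2 : ℕ))

/-- their span -/
noncomputable def MM (K : Type) [Field K] (d : ℕ) : Submodule K (MvPolynomial (Fin 3) K) :=
  Submodule.span K (Set.range fun p : idx d => mon K d p)

/-- the ideal of the grid -/
noncomputable def JJ (K : Type) [Field K] : Ideal (MvPolynomial (Fin 3) K) :=
  Ideal.span {X 0 * f1 K, X 1 * f2 K}

theorem F1_eq : X 0 * f1 K = X 0 ^ 4 - 2 * X 0 ^ 3 * X 2 - X 0 ^ 2 * X 2 ^ 2 + 2 * X 0 * X 2 ^ 3 := by
  have h2 : (C (2 : K) : MvPolynomial (Fin 3) K) = 2 := map_ofNat C 2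
  unfold f1
  rw [C_1, C_neg, C_1, h2]
  ring

theorem F2_eq : X 1 * f2 K = X 1 ^ 3 - X 1 * X 2 ^ 2 := by
  unfold f2
  rw [C_1, C_neg, C_1]
  ring

theorem mon_mem (n : ℕ) : ∀ a b c d : ℕ, a + b ≤ n → a + b + c = d →
    (X 0 ^ a * X 1 ^ b * X 2 ^ c : MvPolynomial (Fin 3) K) ∈
      MM K d ⊔ (JJ K).restrictScalars K := by
  induction n with
  | zero =>
    intro a b c d h1 h2
    have ha : a = 0 := by omega
    have hb : b = 0 := by omega
    subst ha hb
    apply Submodule.mem_sup_left
    apply Submodule.subset_span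
    refine ⟨⟨(0, 0), by simp [idx]⟩, ?_⟩
    simp [mon]
    congr 1
    omega
  | succ n ih =>
    intro a b c d h1 h2
    by_cases ha : 4 ≤ a
    · obtain ⟨a', rfl⟩ : ∃ a', a = a' + 4 := ⟨a - 4, by omega⟩
      have e1 := ih (a' + 3) b (c + 1) d (by omega) (by omega)
      have e2 := ih (a' + 2) b (c + 2) d (by omega) (by omega)
      have e3 := ih (a' + 1) b (c + 3) d (by omega) (by omega)
      have e4 : (X 0 * f1 K) * (X 0 ^ a' * X 1 ^ b * X 2 ^ c) ∈
          MM K d ⊔ (JJ K).restrictScalars K := by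
        apply Submodule.mem_sup_right
        exact Ideal.mul_mem_right _ _ (Ideal.subset_span (by simp))
      have e5 : (X 0 ^ (a' + 4) * X 1 ^ b * X 2 ^ c : MvPolynomial (Fin 3) K) =
          (X 0 * f1 K) * (X 0 ^ a' * X 1 ^ b * X 2 ^ c) +
          ((2 : K) • (X 0 ^ (a' + 3) * X 1 ^ b * X 2 ^ (c + 1)) +
          X 0 ^ (a' + 2) * X 1 ^ b * X 2 ^ (c + 2) -
          (2 : K) • (X 0 ^ (a' + 1) * X 1 ^ b * X 2 ^ (c + 3))) := by
        rw [F1_eq, smul_eq_C_mul, smul_eq_C_mul, show (C (2 : K) : MvPolynomial (Fin 3) K) = 2 from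
          map_ofNat C 2]
        ring
      rw [e5]
      exact Submodule.add_mem _ e4 (Submodule.sub_mem _
        (Submodule.add_mem _ (Submodule.smul_mem _ _ e1) e2) (Submodule.smul_mem _ _ e3))
    · by_cases hb : 3 ≤ b
      · obtain ⟨b', rfl⟩ : ∃ b', b = b' + 3 := ⟨b - 3, by omega⟩
        have e1 := ih a (b' + 1) (c + 2) d (by omega) (by omega)
        have e4 : (X 1 * f2 K) * (X 0 ^ a * X 1 ^ b' * X 2 ^ c) ∈
            MM K d ⊔ (JJ K).restrictScalars K := by
          apply Submodule.mem_sup_right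
          exact Ideal.mul_mem_right _ _ (Ideal.subset_span (by simp))
        have e5 : (X 0 ^ a * X 1 ^ (b' + 3) * X 2 ^ c : MvPolynomial (Fin 3) K) =
            (X 1 * f2 K) * (X 0 ^ a * X 1 ^ b' * X 2 ^ c) +
            X 0 ^ a * X 1 ^ (b' + 1) * X 2 ^ (c + 2) := by
          rw [F2_eq]
          ring
        rw [e5]
        exact Submodule.add_mem _ e4 e1
      · apply Submodule.mem_sup_left
        apply Submodule.subset_span
        refine ⟨⟨(⟨a, by omega⟩, ⟨b, by omega⟩), by simp [idx]; omega⟩, ?_⟩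
        simp only [mon]
        congr 2
        omega

theorem hom_le (d : ℕ) : homogeneousSubmodule (Fin 3) K d ≤ MM K d ⊔ (JJ K).restrictScalars K := by
  intro f hf
  rw [mem_homogeneousSubmodule] at hf
  rw [f.as_sum]
  apply Submodule.sum_mem
  intro s hs
  have h1 := hf (mem_support_iff.1 hs)
  have h2 : s 0 + s 1 + s 2 = d := by
    rw [← h1]
    simp [Finsupp.weight_apply, Finsupp.sum_fintype, Fin.sum_univ_three]
  have h3 : (monomial s (coeff s f) : MvPolynomial (Fin 3) K) =
      (coeff s f) • (X 0 ^ (s 0) * X 1 ^ (s 1) * X 2 ^ (s 2)) := by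
    rw [monomial_eq, smul_eq_C_mul, Finsupp.prod_fintype _ _ (by simp), Fin.prod_univ_three]
  rw [h3]
  exact Submodule.smul_mem _ _ (mon_mem _ _ _ _ _ le_rfl h2)

theorem MM_le (d : ℕ) : MM K d ≤ homogeneousSubmodule (Fin 3) K d := by
  unfold MM
  rw [Submodule.span_le]
  rintro _ ⟨⟨p, hp⟩, rfl⟩
  simp only [idx, Finset.mem_filter, Finset.mem_univ, true_and] at hp
  simp only [mon, SetLike.mem_coe, mem_homogeneousSubmodule]
  have h1 := ((isHomogeneous_X_pow (R := K) (0 : Fin 3) (p.1 : ℕ)).mul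
    (isHomogeneous_X_pow (R := K) (1 : Fin 3) (p.2 : ℕ))).mul
    (isHomogeneous_X_pow (R := K) (2 : Fin 3) (d - (p.1 : ℕ) - (p.2 : ℕ)))
  convert h1 using 1
  omega

theorem ev_mon (d : ℕ) (p : Fin 4 × Fin 3) : ev K (mon K d p) = vv K p := by
  funext g
  rw [ev_apply]
  simp [mon, vv]

theorem ev_J {f : MvPolynomial (Fin 3) K} (hf : f ∈ JJ K) : ev K f = 0 := by
  unfold JJ at hf
  rw [Ideal.mem_span_pair] at hf
  obtain ⟨u, v, rfl⟩ := hf
  rw [map_add, mul_comm u, mul_comm v, ev_F1, ev_F2, add_zero]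

theorem map_ev (d : ℕ) : (homogeneousSubmodule (Fin 3) K d).map (ev K) =
    Submodule.span K (Set.range fun p : idx d => vv K p) := by
  have hM : (MM K d).map (ev K) = Submodule.span K (Set.range fun p : idx d => vv K p) := by
    unfold MM
    rw [Submodule.map_span, ← Set.range_comp]
    congr 2
    funext p
    exact ev_mon d p
  apply le_antisymm
  · refine (Submodule.map_mono (hom_le d)).trans ?_
    rw [Submodule.map_sup, hM]
    apply sup_le le_rfl
    rintro _ ⟨f, hf, rfl⟩
    rw [ev_J hf]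
    exact Submodule.zero_mem _
  · rw [← hM]
    exact Submodule.map_mono (MM_le d)

theorem finrank_map_ev [CharZero K] (d : ℕ) :
    finrank K ((homogeneousSubmodule (Fin 3) K d).map (ev K)) = (idx d).card := by
  rw [map_ev]
  have h1 : LinearIndependent K (fun p : idx d => vv K p) :=
    vv_indep.comp _ Subtype.val_injective
  rw [finrank_span_eq_card h1, Fintype.card_coe]

/-- the Solomon-Terao ideal of the grid arrangement -/
noncomputable def II (K : Type) [Field K] : Ideal (MvPolynomial (Fin 3) K) :=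
  Ideal.span {X 0 * f1 K, X 1 * f2 K, et K}

theorem ker_mk {n : ℕ} (I : Ideal (MvPolynomial (Fin n) K)) :
    LinearMap.ker (Ideal.Quotient.mkₐ K I).toLinearMap = I.restrictScalars K := by
  ext f
  simp [LinearMap.mem_ker, Ideal.Quotient.eq_zero_iff_mem]

theorem ker_ev_le [CharZero K] (d : ℕ) : homogeneousSubmodule (Fin 3) K d ⊓ LinearMap.ker (ev K) ≤
    LinearMap.ker (Ideal.Quotient.mkₐ K (II K)).toLinearMap := by
  rintro f ⟨hf, hf0⟩
  obtain ⟨m, hm, j, hj, rfl⟩ := Submodule.mem_sup.1 (hom_le d hf)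
  have h1 : ev K m = 0 := by
    have : ev K (m + j) = 0 := hf0
    rw [map_add, ev_J hj, add_zero] at this
    exact this
  have h2 : m = 0 := by
    obtain ⟨c, rfl⟩ := (Submodule.mem_span_range_iff_exists_fun K).1 hm
    rw [map_sum] at h1
    have h3 : ∀ p : idx d, c p = 0 := by
      have h4 : LinearIndependent K (fun p : idx d => vv K p) :=
        vv_indep.comp _ Subtype.val_injective
      apply Fintype.linearIndependent_iff.1 h4 c
      rw [← h1]
      apply Finset.sum_congr rfl
      intro p _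
      rw [map_smul, ev_mon]
    apply Finset.sum_eq_zero
    intro p _
    rw [h3 p, zero_smul]
  rw [h2, zero_add, ker_mk]
  exact Ideal.span_mono (by
    intro x hx
    simp only [Set.mem_insert_iff, Set.mem_singleton_iff] at hx ⊢
    tauto) hj

theorem hom_et : et K ∈ homogeneousSubmodule (Fin 3) K 2 := by
  rw [mem_homogeneousSubmodule]
  unfold et
  exact ((isHomogeneous_X_pow _ _).add (isHomogeneous_X_pow _ _)).add (isHomogeneous_X_pow _ _)

theorem hom_F1 : X 0 * f1 K ∈ homogeneousSubmodule (Fin 3) K 4 := by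
  have hl : ∀ (i : Fin 3) (a : K), (X i - C a * X 2 : MvPolynomial (Fin 3) K).IsHomogeneous 1 :=
    fun i a => (isHomogeneous_X _ _).sub (by
      simpa using (isHomogeneous_C (Fin 3) a).mul (isHomogeneous_X K (2 : Fin 3)))
  rw [mem_homogeneousSubmodule]
  unfold f1
  exact (isHomogeneous_X _ _).mul (((hl 0 1).mul (hl 0 (-1))).mul (hl 0 2))

theorem hom_F2 : X 1 * f2 K ∈ homogeneousSubmodule (Fin 3) K 3 := by
  have hl : ∀ (i : Fin 3) (a : K), (X i - C a * X 2 : MvPolynomial (Fin 3) K).IsHomogeneous 1 :=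
    fun i a => (isHomogeneous_X _ _).sub (by
      simpa using (isHomogeneous_C (Fin 3) a).mul (isHomogeneous_X K (2 : Fin 3)))
  rw [mem_homogeneousSubmodule]
  unfold f2
  exact (isHomogeneous_X _ _).mul ((hl 1 1).mul (hl 1 (-1)))

theorem finrank_map_inj {V W : Type*} [AddCommGroup V] [Module K V] [AddCommGroup W] [Module K W]
    (U : Submodule K V) [FiniteDimensional K U] (g : V →ₗ[K] W) (hg : Function.Injective g) :
    finrank K (U.map g) = finrank K U := by
  have h1 := finrank_map_add U g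
  rw [LinearMap.ker_eq_bot.2 hg, inf_bot_eq, finrank_bot, add_zero] at h1
  exact h1

attribute [local instance] MvPolynomial.gradedAlgebra

theorem mem_map_II (d : ℕ) {v : Fin 4 × Fin 3 → K}
    (hv : v ∈ (homogeneousSubmodule (Fin 3) K d ⊓ (II K).restrictScalars K :
      Submodule K (MvPolynomial (Fin 3) K)).map (ev K)) :
    (d < 2 → v = 0) ∧ ∀ e, d = e + 2 → v ∈ ((homogeneousSubmodule (Fin 3) K e).map (ev K)).map
      (LinearMap.mulLeft K (cc K)) := by
  obtain ⟨f, ⟨hf, hfI⟩, rfl⟩ := hv
  have hfI' : f ∈ II K := hfI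
  unfold II at hfI'
  rw [Ideal.mem_span_insert] at hfI'
  obtain ⟨u, g, hg, hfg⟩ := hfI'
  rw [Ideal.mem_span_pair] at hg
  obtain ⟨v, w, hvw⟩ := hg
  have hdec : f = (DirectSum.decompose (homogeneousSubmodule (Fin 3) K) f d :
      MvPolynomial (Fin 3) K) := (DirectSum.decompose_of_mem_same _ hf).symm
  have h1 : (DirectSum.decompose (homogeneousSubmodule (Fin 3) K) f d : MvPolynomial (Fin 3) K) =
      (DirectSum.decompose (homogeneousSubmodule (Fin 3) K) (X 0 * f1 K * u) d :
        MvPolynomial (Fin 3) K) +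
      ((DirectSum.decompose (homogeneousSubmodule (Fin 3) K) (X 1 * f2 K * v) d :
        MvPolynomial (Fin 3) K) +
      (DirectSum.decompose (homogeneousSubmodule (Fin 3) K) (et K * w) d :
        MvPolynomial (Fin 3) K)) := by
    have : f = X 0 * f1 K * u + (X 1 * f2 K * v + et K * w) := by
      rw [hfg, ← hvw]; ring
    rw [this]
    simp only [DirectSum.decompose_add, DirectSum.add_apply, Submodule.coe_add]
  have h2 : ev K (DirectSum.decompose (homogeneousSubmodule (Fin 3) K) (X 0 * f1 K * u) d :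
        MvPolynomial (Fin 3) K) = 0 := by
    rw [DirectSum.coe_decompose_mul_of_left_mem _ d hom_F1]
    split_ifs
    · exact ev_F1 _
    · exact map_zero _
  have h3 : ev K (DirectSum.decompose (homogeneousSubmodule (Fin 3) K) (X 1 * f2 K * v) d :
        MvPolynomial (Fin 3) K) = 0 := by
    rw [DirectSum.coe_decompose_mul_of_left_mem _ d hom_F2]
    split_ifs
    · exact ev_F2 _
    · exact map_zero _
  have h4 : ev K f = ev K (DirectSum.decompose (homogeneousSubmodule (Fin 3) K) (et K * w) d :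
        MvPolynomial (Fin 3) K) := by
    conv_lhs => rw [hdec, h1]
    rw [map_add, map_add, h2, h3, zero_add, zero_add]
  rw [h4, DirectSum.coe_decompose_mul_of_left_mem _ d hom_et]
  constructor
  · intro hd
    rw [if_neg (by omega), map_zero]
  · rintro e rfl
    rw [if_pos (by omega)]
    refine ⟨ev K (DirectSum.decompose (homogeneousSubmodule (Fin 3) K) w (e + 2 - 2) :
        MvPolynomial (Fin 3) K), ⟨_, ?_, rfl⟩, ?_⟩
    · have := (DirectSum.decompose (homogeneousSubmodule (Fin 3) K) w (e + 2 - 2)).2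
      simpa using this
    · funext g
      rw [ev_et]
      rfl

theorem hilb_II [CharZero K] (d : ℕ) :
    hilb (II K) d + (if 2 ≤ d then (idx (d - 2)).card else 0) = (idx d).card := by
  have hfin : FiniteDimensional K (homogeneousSubmodule (Fin 3) K d) :=
    Module.Finite.iff_fg.2 (homogeneousSubmodule_fg _ _ d)
  have h1 := fr (homogeneousSubmodule (Fin 3) K d) (Ideal.Quotient.mkₐ K (II K)).toLinearMap (ev K)
    (ker_ev_le d)
  rw [finrank_map_ev] at h1
  rw [← h1]
  unfold hilb
  congr 1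
  rw [ker_mk]
  split_ifs with hd
  · obtain ⟨e, rfl⟩ : ∃ e, d = e + 2 := ⟨d - 2, by omega⟩
    have h2 : (homogeneousSubmodule (Fin 3) K (e + 2) ⊓ (II K).restrictScalars K :
        Submodule K (MvPolynomial (Fin 3) K)).map (ev K) =
        ((homogeneousSubmodule (Fin 3) K e).map (ev K)).map (LinearMap.mulLeft K (cc K)) := by
      apply le_antisymm
      · intro v hv
        exact (mem_map_II _ hv).2 e rfl
      · rintro _ ⟨_, ⟨w, hw, rfl⟩, rfl⟩
        refine ⟨et K * w, ⟨?_, ?_⟩, ?_⟩
        · have h3 : (et K).IsHomogeneous 2 := hom_et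
          have h4 : w.IsHomogeneous e := hw
          have h5 := h3.mul h4
          rw [add_comm 2 e] at h5
          exact h5
        · exact Ideal.mul_mem_right _ _ (Ideal.subset_span (by simp))
        · funext g
          rw [ev_et]
          rfl
    rw [h2]
    have hfin2 : FiniteDimensional K (homogeneousSubmodule (Fin 3) K e) :=
      Module.Finite.iff_fg.2 (homogeneousSubmodule_fg _ _ e)
    rw [finrank_map_inj _ _ (by
      intro v w hvw
      funext g
      have := congrFun hvw g
      simp only [LinearMap.mulLeft_apply, Pi.mul_apply] at this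
      exact mul_left_cancel₀ (cc_ne g) this), finrank_map_ev]
    simp
  · have h2 : (homogeneousSubmodule (Fin 3) K d ⊓ (II K).restrictScalars K :
        Submodule K (MvPolynomial (Fin 3) K)).map (ev K) = ⊥ := by
      rw [eq_bot_iff]
      intro v hv
      exact (mem_map_II _ hv).1 (by omega)
    rw [h2, finrank_bot]

end Pool.Agent.Q141.ST
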